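import Pool.Agent.P8H15.FG.Stm2
import Pool.Agent.P8H52.FG.Eul

/-!
# Project FG (helper15), package BV01
-/

set_option autoImplicit false

namespace Pool.Agent.P8H93.FG

open Finset Filter Topology
open Pool.Agent.P8H15.FG
open Pool.Agent.H560R3.GB (sing C₂)
open Pool.Agent.P8H52.FG (ff ff_one ff_mul ff_zero ff_sum ff_tsum ff_summable ff_nonneg)

lemma bb_zero (k : ℕ) : bb k 0 = 0 := if_pos rfl

lemma bb_one (k : ℕ) : bb k 1 = 1 := by
  unfold bb
  rw [if_neg one_ne_zero]
  simp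

lemma bb_mul (k : ℕ) {m n : ℕ} (h : m.Coprime n) : bb k (m * n) = bb k m * bb k n := by
  unfold bb
  by_cases hm : m = 0
  · rw [if_pos (by rw [hm, zero_mul]), if_pos hm, zero_mul]
  by_cases hn : n = 0
  · rw [if_pos (by rw [hn, mul_zero]), if_pos hn, mul_zero]
  rw [if_neg (mul_ne_zero hm hn), if_neg hm, if_neg hn, h.primeFactors_mul,
    prod_union h.disjoint_primeFactors]
  congr 1
  · refine prod_congr rfl fun p hp => ?_
    rw [Nat.factorization_mul hm hn, Finsupp.add_apply,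
      Nat.factorization_eq_zero_of_not_dvd (n := n), add_zero]
    intro hd
    exact (Finset.disjoint_left.1 h.disjoint_primeFactors hp)
      (Nat.mem_primeFactors.2 ⟨Nat.prime_of_mem_primeFactors hp, hd, hn⟩)
  · refine prod_congr rfl fun p hp => ?_
    rw [Nat.factorization_mul hm hn, Finsupp.add_apply,
      Nat.factorization_eq_zero_of_not_dvd (n := m), zero_add]
    intro hd
    exact (Finset.disjoint_left.1 h.disjoint_primeFactors
      (Nat.mem_primeFactors.2 ⟨Nat.prime_of_mem_primeFactors hp, hd, hm⟩)) hp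

lemma bb_pow (k : ℕ) {p e : ℕ} (hp : p.Prime) (he : e ≠ 0) : bb k (p ^ e) = bp k p e := by
  unfold bb
  rw [if_neg (pow_ne_zero _ hp.ne_zero), Nat.primeFactors_prime_pow he hp, prod_singleton,
    hp.factorization_pow, Finsupp.single_eq_same]

lemma bp_three (k p : ℕ) {e : ℕ} (he : 3 ≤ e) : bp k p e = 0 := by
  unfold bp
  split_ifs <;> first | rfl | omega

/-- the sum over the powers of a prime, with a weight -/
lemma tsum_pow (k : ℕ) {p : ℕ} (hp : p.Prime) (w : ℕ → ℝ) :
    ∑' e : ℕ, bb k (p ^ e) * w (p ^ e) = w 1 + bp k p 1 * w p + bp k p 2 * w (p ^ 2) := by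
  rw [tsum_eq_sum (s := range 3)]
  · rw [sum_range_succ, sum_range_succ, sum_range_one, pow_zero, pow_one, bb_one, one_mul,
      ← bb_pow k hp one_ne_zero, ← bb_pow k hp two_ne_zero, pow_one]
  · intro e he
    rw [mem_range, not_lt] at he
    rw [bb_pow k hp (by omega), bp_three k p he, zero_mul]

lemma ff_dvd {k p : ℕ} (hp : p.Prime) (h : p ∣ k) : ff k p = 0 := by
  unfold ff
  rw [if_neg]
  intro h1
  exact hp.one_lt.ne' (Nat.Coprime.eq_one_of_dvd h1 h)

lemma three_le {k p : ℕ} (hk : Even k) (hp : p.Prime) (h : ¬ p ∣ k) : 3 ≤ p := by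
  have h2 := hp.two_le
  rcases Nat.lt_or_ge 2 p with h3 | h3
  · exact h3
  · exfalso
    apply h
    have : p = 2 := by omega
    rw [this]
    exact hk.two_dvd

lemma ff_not {k p : ℕ} (hk : Even k) (hp : p.Prime) (h : ¬ p ∣ k) :
    ff k p = 1 / ((p : ℝ) * (p - 2)) := by
  have h3 := three_le hk hp h
  unfold ff
  rw [if_pos ((Nat.Prime.coprime_iff_not_dvd hp).2 h)]
  have ho : Odd p := hp.odd_of_ne_two (by omega)
  unfold hh
  rw [if_pos ⟨hp.squarefree, ho⟩, hp.primeFactors, prod_singleton]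
  have h4 : (3 : ℝ) ≤ p := by exact_mod_cast h3
  have e0 : (p : ℝ) ≠ 0 := by linarith
  have e2 : (p : ℝ) - 2 ≠ 0 := by intro h; linarith
  field_simp

/-- the local factor at `s = 0` -/
lemma loc0 {k p : ℕ} (hk : Even k) (hp : p.Prime) :
    1 + bp k p 1 + bp k p 2 = (1 + ff k p) * (if p ∣ k then 1 - (p : ℝ)⁻¹ else 1) := by
  have h2 : (2 : ℝ) ≤ p := by exact_mod_cast hp.two_le
  have e0 : (p : ℝ) ≠ 0 := by linarith
  by_cases h : p ∣ k
  · rw [ff_dvd hp h, if_pos h]
    unfold bp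
    rw [if_pos h, if_pos rfl, if_pos h, if_neg (by norm_num)]
    field_simp
    ring
  · have h4 : (3 : ℝ) ≤ p := by exact_mod_cast three_le hk hp h
    have e2 : (p : ℝ) - 2 ≠ 0 := by intro h; linarith
    rw [ff_not hk hp h, if_neg h]
    unfold bp
    rw [if_neg h, if_pos rfl, if_neg h, if_neg (by norm_num), if_pos rfl]
    field_simp
    ring

/-- the local factor at `s = 1` -/
lemma loc1 {k p : ℕ} (hk : Even k) (hp : p.Prime) :
    1 + bp k p 1 * (1 / (p : ℝ)) + bp k p 2 * (1 / (p : ℝ) ^ 2) = (1 + ff k p) * (1 - 1 / (p : ℝ) ^ 2) := by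
  have h2 : (2 : ℝ) ≤ p := by exact_mod_cast hp.two_le
  have e0 : (p : ℝ) ≠ 0 := by linarith
  by_cases h : p ∣ k
  · rw [ff_dvd hp h]
    unfold bp
    rw [if_pos h, if_pos rfl, if_pos h, if_neg (by norm_num)]
    field_simp
    ring
  · have h4 : (3 : ℝ) ≤ p := by exact_mod_cast three_le hk hp h
    have e2 : (p : ℝ) - 2 ≠ 0 := by intro h; linarith
    rw [ff_not hk hp h]
    unfold bp
    rw [if_neg h, if_pos rfl, if_neg h, if_neg (by norm_num), if_pos rfl]
    field_simp
    ring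

/-- the product of `1 + ff k p` -/
lemma ff_prod {k : ℕ} (hk : Even k) :
    Tendsto (fun n : ℕ => ∏ p ∈ Nat.primesBelow n, (1 + ff k p)) atTop (𝓝 (∑' d : ℕ, ff k d)) := by
  have hs : Summable (fun d => ‖ff k d‖) := by
    have : (fun d => ‖ff k d‖) = ff k := by
      funext d
      rw [Real.norm_eq_abs, abs_of_nonneg (ff_nonneg k d)]
    rw [this]
    exact ff_summable hk
  have h1 := EulerProduct.eulerProduct (ff_one k) (fun {m n} h => ff_mul k h) hs (ff_zero k)
  refine h1.congr fun n => prod_congr rfl fun p hp => ?_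
  exact ff_tsum k (Nat.mem_primesBelow.1 hp).2

/-- the product of `1 - p ^ (-2)` -/
lemma zeta_prod : Tendsto (fun n : ℕ => ∏ p ∈ Nat.primesBelow n, (1 - 1 / (p : ℝ) ^ 2)) atTop
    (𝓝 (Real.pi ^ 2 / 6)⁻¹) := by
  let f : ℕ →*₀ ℝ :=
    { toFun := fun n => 1 / (n : ℝ) ^ 2
      map_zero' := by simp
      map_one' := by simp
      map_mul' := fun m n => by push_cast; rw [mul_pow, one_div_mul_one_div] }
  have hf : ∀ n, f n = 1 / (n : ℝ) ^ 2 := fun _ => rfl
  have hs : Summable (fun n => ‖f n‖) := by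
    refine (hasSum_zeta_two.summable).congr fun n => ?_
    rw [hf, Real.norm_eq_abs, abs_of_nonneg (by positivity)]
  have h1 := EulerProduct.eulerProduct_completely_multiplicative (f := f) hs
  have h2 : ∑' n, f n = Real.pi ^ 2 / 6 := hasSum_zeta_two.tsum_eq
  rw [h2] at h1
  have h3 := h1.inv₀ (by positivity)
  refine h3.congr fun n => ?_
  rw [← prod_inv_distrib]
  refine prod_congr rfl fun p _ => ?_
  rw [inv_inv, hf]

/-- the finite correction -/
lemma cor_prod {k : ℕ} (hk1 : 1 ≤ k) :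
    Tendsto (fun n : ℕ => ∏ p ∈ Nat.primesBelow n, (if p ∣ k then 1 - (p : ℝ)⁻¹ else 1)) atTop
      (𝓝 (∏ p ∈ k.primeFactors, (1 - (p : ℝ)⁻¹))) := by
  refine tendsto_const_nhds.congr' ?_
  filter_upwards [eventually_gt_atTop k] with n hn
  rw [← prod_filter]
  refine prod_congr ?_ fun _ _ => rfl
  ext p
  rw [mem_filter, Nat.mem_primesBelow, Nat.mem_primeFactors]
  constructor
  · rintro ⟨a, b, -⟩
    exact ⟨⟨(Nat.le_of_dvd hk1 b).trans_lt hn, a⟩, b⟩
  · rintro ⟨⟨-, a⟩, b⟩
    exact ⟨a, b, by omega⟩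

lemma bb_summable (hB : S_BABS) {k : ℕ} (hk1 : 1 ≤ k) (hk : Even k) : Summable (fun n => |bb k n|) := by
  obtain ⟨C, -, h⟩ := hB
  refine Summable.of_nonneg_of_le (fun n => abs_nonneg _) (fun n => ?_) (h k hk1 hk).1
  rcases Nat.eq_zero_or_pos n with h0 | h0
  · rw [h0, bb_zero, abs_zero, zero_mul]
  · have h1 : (1 : ℝ) ≤ (n : ℝ) ^ (1 / 4 : ℝ) :=
      Real.one_le_rpow (by exact_mod_cast h0) (by norm_num)
    nlinarith [abs_nonneg (bb k n)]

lemma tot_prod {k : ℕ} (hk1 : 1 ≤ k) :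
    (k : ℝ) / Nat.totient k * ∏ p ∈ k.primeFactors, (1 - (p : ℝ)⁻¹) = 1 := by
  have h1 : ((Nat.totient k : ℕ) : ℝ) = k * ∏ p ∈ k.primeFactors, (1 - (p : ℝ)⁻¹) := by
    have h := Nat.totient_eq_mul_prod_factors k
    have h2 : (((Nat.totient k : ℕ) : ℚ) : ℝ) = ((k * ∏ p ∈ k.primeFactors, (1 - (p : ℚ)⁻¹) : ℚ) : ℝ) := by
      rw [h]
    push_cast at h2
    exact h2
  have h3 : ((Nat.totient k : ℕ) : ℝ) ≠ 0 := by
    exact_mod_cast (Nat.totient_pos.2 hk1).ne'
  rw [div_mul_eq_mul_div, ← h1, div_self h3]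

theorem bv01 : S_BABS → S_BV01 := by
  intro hB k hk1 hk
  have hs := bb_summable hB hk1 hk
  have heul := (Pool.Agent.P8H52.FG.eul k hk1 hk).2
  have heul' : sing k * ∑' d : ℕ, ff k d = (k : ℝ) / Nat.totient k := heul
  constructor
  · have h1 := EulerProduct.eulerProduct (f := bb k) (bb_one k) (fun {m n} h => bb_mul k h)
      (by simpa only [Real.norm_eq_abs] using hs) (bb_zero k)
    have h2 := (ff_prod hk).mul (cor_prod hk1)
    have h3 : ∑' n, bb k n = (∑' d : ℕ, ff k d) * ∏ p ∈ k.primeFactors, (1 - (p : ℝ)⁻¹) := by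
      refine tendsto_nhds_unique h1 (h2.congr fun n => ?_)
      rw [← prod_mul_distrib]
      refine prod_congr rfl fun p hp => ?_
      have hp' := (Nat.mem_primesBelow.1 hp).2
      rw [← loc0 hk hp']
      have := tsum_pow k hp' fun _ => 1
      simp only [mul_one] at this
      exact this.symm
    rw [h3, ← mul_assoc, heul', tot_prod hk1]
  · have hs2 : Summable (fun n : ℕ => ‖bb k n / n‖) := by
      refine Summable.of_nonneg_of_le (fun n => norm_nonneg _) (fun n => ?_) hs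
      rw [Real.norm_eq_abs, abs_div]
      rcases Nat.eq_zero_or_pos n with h0 | h0
      · rw [h0, bb_zero, abs_zero, zero_div]
      · have h1 : (1 : ℝ) ≤ |(n : ℝ)| := by
          rw [Nat.abs_cast]
          exact_mod_cast h0
        exact div_le_self (abs_nonneg _) h1
    have h1 := EulerProduct.eulerProduct (f := fun n : ℕ => bb k n / n) (by simp [bb_one])
      (fun {m n} h => by
        push_cast
        rw [bb_mul k h, div_mul_div_comm]) hs2 (by simp)
    have h2 := (ff_prod hk).mul zeta_prod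
    have h3 : ∑' n : ℕ, bb k n / n = (∑' d : ℕ, ff k d) * (Real.pi ^ 2 / 6)⁻¹ := by
      refine tendsto_nhds_unique h1 (h2.congr fun n => ?_)
      rw [← prod_mul_distrib]
      refine prod_congr rfl fun p hp => ?_
      have hp' := (Nat.mem_primesBelow.1 hp).2
      rw [← loc1 hk hp']
      have := tsum_pow k hp' fun n => 1 / (n : ℝ)
      simp only [Nat.cast_one, div_one, Nat.cast_pow, mul_one_div] at this
      simp only [Nat.cast_pow, mul_one_div]
      exact this.symm
    rw [h3]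
    have hpi : Real.pi ^ 2 / 6 ≠ 0 := by positivity
    rw [← heul']
    field_simp

end Pool.Agent.P8H93.FG
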